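import Pool.Agent.Helper608.FluxThree

open Set MeasureTheory
open scoped Manifold ContDiff InnerProductSpace

namespace Pool.Agent.Results.MP_efb2da_gt.Centroid

/-- The Euclidean plane. -/
abbrev E2 := EuclideanSpace ℝ (Fin 2)

/-- Euclidean three-space. -/
abbrev E3 := EuclideanSpace ℝ (Fin 3)

/-- The plane `P = {x₃ = 0}` of three-space, parametrised by `ℝ²`. -/
def inclP (x : E2) : E3 := !₂[x 0, x 1, 0]

/-- `γ` is a smooth regular parametrisation, of period `1` and injective on `[0, 1)`, of a simple
closed curve of the plane. -/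
structure IsSimpleClosed (γ : ℝ → E2) : Prop where
  smooth : ContDiff ℝ ∞ γ
  periodic : Function.Periodic γ 1
  regular : ∀ t, deriv γ t ≠ 0
  injective : InjOn γ (Ico 0 1)

/-- The length of the curve. -/
noncomputable def length (γ : ℝ → E2) : ℝ := ∫ t in (0:ℝ)..1, ‖deriv γ t‖

/-- The integral `∮ x dy`. By Green's theorem it is `|D|` up to a sign (the orientation), where `D`
is the domain enclosed by the curve. -/
noncomputable def area (γ : ℝ → E2) : ℝ := ∫ t in (0:ℝ)..1, γ t 0 * deriv γ t 1

/-- The integral `∮ (x² / 2) dy`, by Green's theorem `∫_D x` up to the same sign. -/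
noncomputable def momentX (γ : ℝ → E2) : ℝ := ∫ t in (0:ℝ)..1, γ t 0 ^ 2 / 2 * deriv γ t 1

/-- The integral `- ∮ (y² / 2) dx`, by Green's theorem `∫_D y` up to the same sign. -/
noncomputable def momentY (γ : ℝ → E2) : ℝ := ∫ t in (0:ℝ)..1, -(γ t 1 ^ 2 / 2) * deriv γ t 0

/-- The integral of the coordinate `i` with respect to arc length. -/
noncomputable def arcMoment (γ : ℝ → E2) (i : Fin 2) : ℝ :=
  ∫ t in (0:ℝ)..1, γ t i * ‖deriv γ t‖

/-- The dot product of `ℝ³`. -/
noncomputable def dot (x y : E3) : ℝ := ⟪x, y⟫_ℝ

section Surface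

variable {M : Type*} [TopologicalSpace M] [ChartedSpace (EuclideanHalfSpace 2) M]

/-- The map `f` from the surface with boundary `M` to `ℝ³` is smooth (up to the boundary). -/
def IsSmooth (f : M → E3) : Prop := ContMDiff (𝓡∂ 2) 𝓘(ℝ, E3) ∞ f

/-- The tangent plane of the surface with boundary `M` at `p`. -/
abbrev Tan (p : M) := TangentSpace (𝓡∂ 2) p

/-- The differential of `f : M → ℝ³` at `p`, a linear map from the tangent plane, which is the
space `ℝ²` (identified by the preferred chart at `p`), to `ℝ³`. -/
noncomputable def diffL (f : M → E3) (p : M) : E2 →L[ℝ] E3 := mfderiv (𝓡∂ 2) 𝓘(ℝ, E3) f p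

/-- The differential of `f : M → ℝ³` at `p`, applied to the tangent vector `v`. -/
noncomputable def dmap (f : M → E3) (p : M) (v : Tan p) : E3 := diffL f p v

/-- The boundary of the surface with boundary `M`. -/
def bdry (M : Type*) [TopologicalSpace M] [ChartedSpace (EuclideanHalfSpace 2) M] : Set M :=
  (𝓡∂ 2).boundary M

/-- `v`, `w` is an orthonormal basis of the tangent plane at `p` for the metric induced by `f`. -/
def IsOrthonormal (f : M → E3) (p : M) (v w : Tan p) : Prop :=
  dot (dmap f p v) (dmap f p v) = 1 ∧ dot (dmap f p w) (dmap f p w) = 1 ∧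
    dot (dmap f p v) (dmap f p w) = 0

/-- `f : M → ℝ³` is a smooth immersion of the surface with boundary `M`, with smooth unit
normal field `N`, whose mean curvature (with respect to `N`) is the constant `H`. The mean
curvature at `p` is `-1/2` times the trace of the derivative of `N`, computed in a basis of
`T_p M` orthonormal for the induced metric. -/
structure IsCMCImmersion (f N : M → E3) (H : ℝ) : Prop where
  smooth_map : IsSmooth f
  immersion : ∀ p : M, Function.Injective (dmap f p)
  smooth_normal : IsSmooth N
  norm_normal : ∀ p : M, dot (N p) (N p) = 1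
  inner_normal : ∀ (p : M) (v : Tan p), dot (N p) (dmap f p v) = 0
  mean_curvature : ∀ (p : M) (v w : Tan p), IsOrthonormal f p v w →
    -(dot (dmap N p v) (dmap f p v) + dot (dmap N p w) (dmap f p w)) / 2 = H

/-- The immersion `f` maps the boundary of `M` bijectively onto the set `C` of the plane `P`. -/
def BoundaryIs (f : M → E3) (C : Set E2) : Prop :=
  InjOn f (bdry M) ∧ f '' bdry M = inclP '' C

lemma IsCMCImmersion.toOld {f N : M → E3} {H : ℝ} (h : IsCMCImmersion f N H) :
    Helper608.IsCMCImmersion f N H := by
  refine ⟨h.smooth_map, h.immersion, h.smooth_normal, ?_, h.inner_normal, ?_⟩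
  · intro p
    have h1 := h.norm_normal p
    unfold dot at h1
    rw [real_inner_self_eq_norm_sq] at h1
    nlinarith [norm_nonneg (N p)]
  · intro p v w hv hw hvw
    apply h.mean_curvature p v w
    refine ⟨?_, ?_, hvw⟩
    · unfold dot
      rw [real_inner_self_eq_norm_sq]
      have : ‖dmap f p v‖ = 1 := hv
      rw [this]; norm_num
    · unfold dot
      rw [real_inner_self_eq_norm_sq]
      have : ‖dmap f p w‖ = 1 := hw
      rw [this]; norm_num

end Surface

lemma to_Ico (g : ℝ → ℝ) : ∫ t in (0:ℝ)..1, g t = ∫ t in Ico (0:ℝ) 1, g t := by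
  rw [intervalIntegral.integral_of_le zero_le_one, integral_Ico_eq_integral_Ioo,
    integral_Ioc_eq_integral_Ioo]

lemma length_pos {γ : ℝ → E2} (hγ : IsSimpleClosed γ) : 0 < length γ := by
  rw [length]
  have hc : Continuous (fun t => ‖deriv γ t‖) := (hγ.smooth.continuous_deriv (by simp)).norm
  exact intervalIntegral.intervalIntegral_pos_of_pos (hc.intervalIntegrable _ _)
    (fun t => norm_pos_iff.2 (hγ.regular t)) zero_lt_one

/-- If a simple closed smooth plane curve `C` bounds a compact immersed surface of constant mean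
curvature `H` with `|H| = L / (2 |D|)`, that is `2 |H| |D| = L`, then the centroid of `C` is the
centroid of `D` (the area and the moments of the enclosed domain `D` being expressed as integrals
over `C`, as in Green's theorem). -/
theorem result (γ : ℝ → E2) (hγ : IsSimpleClosed γ)
    (M : Type*) [TopologicalSpace M] [T2Space M] [CompactSpace M]
    [ChartedSpace (EuclideanHalfSpace 2) M] [IsManifold (𝓡∂ 2) ∞ M]
    (f N : M → E3) (H : ℝ) (h : IsCMCImmersion f N H) (hb : BoundaryIs f (range γ))
    (hH : 2 * |H| * |area γ| = length γ) :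
    area γ ≠ 0 ∧ arcMoment γ 0 / length γ = momentX γ / area γ ∧
    arcMoment γ 1 / length γ = momentY γ / area γ := by
  have hL := length_pos hγ
  have hA : area γ ≠ 0 := by
    intro hA
    rw [hA] at hH
    simp at hH
    linarith
  have hext : |2 * H * area γ| = length γ := by
    rw [abs_mul, abs_mul, abs_of_pos (by norm_num : (0:ℝ) < 2)]
    exact hH
  have h1 := Helper608.centroid_planar hγ.smooth hγ.periodic hγ.regular hγ.injective h.toOld
    hb.1 hb.2 (by rw [← to_Ico, ← to_Ico]; exact hext)
  have h2 := Helper608.centroid_planar' hγ.smooth hγ.periodic hγ.regular hγ.injective h.toOld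
    hb.1 hb.2 (by rw [← to_Ico, ← to_Ico]; exact hext)
  rw [← to_Ico, ← to_Ico, ← to_Ico, ← to_Ico] at h1 h2
  refine ⟨hA, ?_, ?_⟩
  · rw [div_eq_div_iff hL.ne' hA]
    unfold arcMoment momentX area length
    linarith
  · rw [div_eq_div_iff hL.ne' hA]
    unfold arcMoment momentY area length
    linarith

end Pool.Agent.Results.MP_efb2da_gt.Centroid
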